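import Pool.Agent.Q204.BS.Main

/-!
# The rotations of the plane are the group generated by `a† b - a b†`
-/

set_option autoImplicit false

open MeasureTheory Complex ComplexConjugate

namespace Pool.Agent.Q204.BS

/-- the annihilation operator of the first mode, `a = (x + ∂_x)/√2` -/
noncomputable def aOp (f : ℝ → ℝ → ℂ) (x y : ℝ) : ℂ :=
  (x * f x y + deriv (fun t => f t y) x) / ((√2 : ℝ) : ℂ)

/-- the creation operator of the first mode, `a† = (x - ∂_x)/√2` -/
noncomputable def aDag (f : ℝ → ℝ → ℂ) (x y : ℝ) : ℂ :=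
  (x * f x y - deriv (fun t => f t y) x) / ((√2 : ℝ) : ℂ)

/-- the annihilation operator of the second mode -/
noncomputable def bOp (f : ℝ → ℝ → ℂ) (x y : ℝ) : ℂ :=
  (y * f x y + deriv (fun t => f x t) y) / ((√2 : ℝ) : ℂ)

/-- the creation operator of the second mode -/
noncomputable def bDag (f : ℝ → ℝ → ℂ) (x y : ℝ) : ℂ :=
  (y * f x y - deriv (fun t => f x t) y) / ((√2 : ℝ) : ℂ)

/-- `a† b - a b† = x ∂_y - y ∂_x` on twice continuously differentiable functions. -/
theorem generator_eq (f : ℝ → ℝ → ℂ) (hf : ContDiff ℝ 2 (fun q : ℝ × ℝ => f q.1 q.2)) (x y : ℝ) :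
    aDag (bOp f) x y - aOp (bDag f) x y =
      x * deriv (fun t => f x t) y - y * deriv (fun t => f t y) x := by
  have hd : Differentiable ℝ (fun q : ℝ × ℝ => f q.1 q.2) := hf.differentiable (by norm_num)
  have hx : DifferentiableAt ℝ (fun t => f t y) x := by
    have : (fun t => f t y) = (fun q : ℝ × ℝ => f q.1 q.2) ∘ fun t : ℝ => (t, y) := rfl
    rw [this]
    exact (hd _).comp _ (by fun_prop)
  have hy : ∀ t, deriv (fun s => f t s) y = fderiv ℝ (fun q : ℝ × ℝ => f q.1 q.2) (t, y) (0, 1) := by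
    intro t
    have h1 : HasFDerivAt (fun q : ℝ × ℝ => f q.1 q.2)
        (fderiv ℝ (fun q : ℝ × ℝ => f q.1 q.2) (t, y)) (t, y) := (hd _).hasFDerivAt
    have h2 : HasDerivAt (fun s : ℝ => (t, s)) ((0 : ℝ), (1 : ℝ)) y :=
      (hasDerivAt_const y t).prodMk (hasDerivAt_id y)
    exact (h1.comp_hasDerivAt y h2).deriv
  have hxy : DifferentiableAt ℝ (fun t => deriv (fun s => f t s) y) x := by
    simp_rw [hy]
    have h1 : ContDiff ℝ 1 (fderiv ℝ (fun q : ℝ × ℝ => f q.1 q.2)) :=
      hf.fderiv_right (by norm_num)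
    have h2 : Differentiable ℝ (fderiv ℝ (fun q : ℝ × ℝ => f q.1 q.2)) :=
      h1.differentiable (by norm_num)
    have h3 : DifferentiableAt ℝ (fun t : ℝ => fderiv ℝ (fun q : ℝ × ℝ => f q.1 q.2) (t, y)) x := by
      have : (fun t : ℝ => fderiv ℝ (fun q : ℝ × ℝ => f q.1 q.2) (t, y)) =
        (fderiv ℝ (fun q : ℝ × ℝ => f q.1 q.2)) ∘ fun t : ℝ => (t, y) := rfl
      rw [this]
      exact (h2 _).comp _ (by fun_prop)
    exact h3.clm_apply (differentiableAt_const _)
  have e1 : deriv (fun t => bOp f t y) x =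
      (y * deriv (fun t => f t y) x + deriv (fun t => deriv (fun s => f t s) y) x) /
        ((√2 : ℝ) : ℂ) := by
    unfold bOp
    rw [deriv_div_const, deriv_fun_add (hx.const_mul _) hxy, deriv_const_mul _ hx]
  have e2 : deriv (fun t => bDag f t y) x =
      (y * deriv (fun t => f t y) x - deriv (fun t => deriv (fun s => f t s) y) x) /
        ((√2 : ℝ) : ℂ) := by
    unfold bDag
    rw [deriv_div_const, deriv_fun_sub (hx.const_mul _) hxy, deriv_const_mul _ hx]
  have h2 : ((√2 : ℝ) : ℂ) * ((√2 : ℝ) : ℂ) = 2 := by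
    rw [← Complex.ofReal_mul, Real.mul_self_sqrt (by norm_num)]
    norm_num
  have h20 : ((√2 : ℝ) : ℂ) ≠ 0 := Complex.ofReal_ne_zero.2 (by positivity)
  unfold aDag aOp
  rw [e1, e2]
  unfold bOp bDag
  field_simp
  linear_combination (-(x * deriv (fun t => f x t) y - y * deriv (fun t => f t y) x)) * h2

/-- The rotations are the one-parameter group generated by `a† b - a b†`: for every twice
continuously differentiable `Ψ`, `(d/dθ) rot θ Ψ = (a† b - a b†) (rot θ Ψ)`. -/
theorem rot_generator (Ψ : ℝ → ℝ → ℂ) (hΨ : ContDiff ℝ 2 (fun q : ℝ × ℝ => Ψ q.1 q.2))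
    (θ x y : ℝ) : HasDerivAt (fun t => rot t Ψ x y)
      (aDag (bOp (rot θ Ψ)) x y - aOp (bDag (rot θ Ψ)) x y) θ := by
  have hd : Differentiable ℝ (fun q : ℝ × ℝ => Ψ q.1 q.2) := hΨ.differentiable (by norm_num)
  have hf : ContDiff ℝ 2 (fun q : ℝ × ℝ => rot θ Ψ q.1 q.2) := by
    have : (fun q : ℝ × ℝ => rot θ Ψ q.1 q.2) = (fun q : ℝ × ℝ => Ψ q.1 q.2) ∘
      fun q : ℝ × ℝ => (q.1 * Real.cos θ - q.2 * Real.sin θ,
        q.1 * Real.sin θ + q.2 * Real.cos θ) := rfl
    rw [this]
    exact hΨ.comp (by fun_prop)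
  rw [generator_eq _ hf]
  set F := fun q : ℝ × ℝ => Ψ q.1 q.2 with hF
  set R : ℝ × ℝ := (x * Real.cos θ - y * Real.sin θ, x * Real.sin θ + y * Real.cos θ) with hR
  have h0 : HasFDerivAt F (fderiv ℝ F R) R := (hd R).hasFDerivAt
  have hx : HasDerivAt (fun t => rot θ Ψ t y) (fderiv ℝ F R (Real.cos θ, Real.sin θ)) x := by
    have h1 : HasDerivAt (fun t : ℝ => (t * Real.cos θ - y * Real.sin θ,
        t * Real.sin θ + y * Real.cos θ)) (Real.cos θ, Real.sin θ) x := by
      refine HasDerivAt.prodMk ?_ ?_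
      · simpa using ((hasDerivAt_id x).mul_const (Real.cos θ)).sub_const (y * Real.sin θ)
      · simpa using ((hasDerivAt_id x).mul_const (Real.sin θ)).add_const (y * Real.cos θ)
    exact h0.comp_hasDerivAt x h1
  have hy : HasDerivAt (fun t => rot θ Ψ x t) (fderiv ℝ F R (-Real.sin θ, Real.cos θ)) y := by
    have h1 : HasDerivAt (fun t : ℝ => (x * Real.cos θ - t * Real.sin θ,
        x * Real.sin θ + t * Real.cos θ)) (-Real.sin θ, Real.cos θ) y := by
      refine HasDerivAt.prodMk ?_ ?_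
      · simpa using ((hasDerivAt_id y).mul_const (Real.sin θ)).const_sub (x * Real.cos θ)
      · simpa using ((hasDerivAt_id y).mul_const (Real.cos θ)).const_add (x * Real.sin θ)
    exact h0.comp_hasDerivAt y h1
  have ht : HasDerivAt (fun t => rot t Ψ x y)
      (fderiv ℝ F R (-(x * Real.sin θ) - y * Real.cos θ, x * Real.cos θ - y * Real.sin θ)) θ := by
    have h1 : HasDerivAt (fun t : ℝ => (x * Real.cos t - y * Real.sin t,
        x * Real.sin t + y * Real.cos t))
        (-(x * Real.sin θ) - y * Real.cos θ, x * Real.cos θ - y * Real.sin θ) θ := by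
      refine HasDerivAt.prodMk ?_ ?_
      · have h2 := ((Real.hasDerivAt_cos θ).const_mul x).fun_sub
          ((Real.hasDerivAt_sin θ).const_mul y)
        have e : -(x * Real.sin θ) - y * Real.cos θ = x * -Real.sin θ - y * Real.cos θ := by ring
        rw [e]
        exact h2
      · have h2 := ((Real.hasDerivAt_sin θ).const_mul x).fun_add
          ((Real.hasDerivAt_cos θ).const_mul y)
        have e : x * Real.cos θ - y * Real.sin θ = x * Real.cos θ + y * -Real.sin θ := by ring
        rw [e]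
        exact h2
    exact h0.comp_hasDerivAt θ h1
  rw [hx.deriv, hy.deriv]
  convert ht using 1
  have e : ((-(x * Real.sin θ) - y * Real.cos θ, x * Real.cos θ - y * Real.sin θ) : ℝ × ℝ) =
      x • (-Real.sin θ, Real.cos θ) - y • (Real.cos θ, Real.sin θ) := by
    ext <;> simp
  rw [e, map_sub, map_smul, map_smul, Complex.real_smul, Complex.real_smul]

end Pool.Agent.Q204.BS
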