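import Pool.Agent.Q204.BS.Vec

/-!
# Beam splitter states built from Fock-bounded pure states: definitions and the counterexample
-/

set_option autoImplicit false

open MeasureTheory Complex ComplexConjugate
open scoped InnerProductSpace
open scoped ComplexOrder

namespace Pool.Agent.Q204.BS

/-- The Hilbert space `L²(ℝ)` of one mode. -/
abbrev H : Type := Lp ℂ 2 (volume : Measure ℝ)

/-- The wave function of the Fock state `|n⟩`: `(n! √π)^(-1/2) He_n(√2 x) exp(-x²/2)` with the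
(probabilists') Hermite polynomial `He_n` of Mathlib, i.e. `(2^n n! √π)^(-1/2) H_n(x) exp(-x²/2)`. -/
noncomputable def fock (n : ℕ) (x : ℝ) : ℂ :=
  ((Polynomial.aeval (√2 * x) (Polynomial.hermite n) * Real.exp (-(x ^ 2 / 2)) /
    √((n.factorial : ℝ) * √Real.pi) : ℝ) : ℂ)

/-- A Fock-bounded pure state: a unit vector of `L²(ℝ)` that is a finite linear combination of
Fock states. -/
def FockBounded (ψ : ℝ → ℂ) : Prop :=
  (∃ (N : ℕ) (c : ℕ → ℂ), ∀ x, ψ x = ∑ n ∈ Finset.range N, c n * fock n x) ∧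
    MemLp ψ 2 volume ∧ ∫ x, ‖ψ x‖ ^ 2 = 1

/-- The one-parameter group `exp (θ (a† b - a b†))` on wave functions of two modes: the rotation
of the plane by `θ` (see `rot_generator`). -/
noncomputable def rot (θ : ℝ) (Ψ : ℝ → ℝ → ℂ) (x y : ℝ) : ℂ :=
  Ψ (x * Real.cos θ - y * Real.sin θ) (x * Real.sin θ + y * Real.cos θ)

/-- The two-mode wave function `U (ψ ⊗ φ)` at the output of the balanced beam splitter
`U = exp ((π/4) (a† b - a b†))`. -/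
noncomputable def outKet (ψ φ : ℝ → ℂ) : ℝ → ℝ → ℂ :=
  rot (Real.pi / 4) (fun x y => ψ x * φ y)

/-- The operators on `L²(ℝ)`. -/
abbrev Op : Type := H →L[ℂ] H

/-- The inner product `⟨f|g⟩` of `L²(ℝ)` (conjugate linear in `f`). -/
noncomputable def ip (f g : H) : ℂ := ⟪f, g⟫_ℂ

/-- The vector `S f`. -/
noncomputable def app (S : Op) (f : H) : H := S f

/-- The vector `c f`. -/
noncomputable def smu (c : ℂ) (f : H) : H := c • f

/-- The value `f(x)`. -/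
noncomputable def ev (f : H) (x : ℝ) : ℂ := f x

/-- `∫ conj (f x) Ψ(x, y) dx`, the function of `y` obtained by contracting `Ψ` with `⟨f|` in the
first mode. -/
noncomputable def contr (f : H) (Ψ : ℝ → ℝ → ℂ) (y : ℝ) : ℂ := ∫ x, conj (ev f x) * Ψ x y

/-- `S` is the beam-splitter state `σ(ψ, φ) = Tr_2 [U (|ψ⟩⟨ψ| ⊗ |φ⟩⟨φ|) U†]`: the partial trace
over the second mode (variable `y`) of the projection on `Ψ = U (ψ ⊗ φ)`, that is
`⟨f|S|g⟩ = ∫ (∫ conj (f x) Ψ(x, y) dx) conj (∫ conj (g x) Ψ(x, y) dx) dy` for all `f, g`. -/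
def IsBeamSplitterState (ψ φ : ℝ → ℂ) (S : Op) : Prop :=
  ∀ f g : H, ip f (app S g) = ∫ y, contr f (outKet ψ φ) y * conj (contr g (outKet ψ φ) y)

/-- `ρ = ∑ w_k |u_k⟩⟨u_k|` with `w_k ≥ 0` and `∑ w_k ‖u_k‖² = 1` (the series for `ρ f` converging
in norm): `ρ` is a density operator. -/
def IsMixture (w : ℕ → ℝ) (u : ℕ → H) (ρ : Op) : Prop :=
  (∀ k, 0 ≤ w k) ∧ HasSum (fun k => w k * ‖u k‖ ^ 2) 1 ∧
    ∀ f, HasSum (fun k => smu (w k * ip (u k) f) (u k)) (app ρ f)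

/-- `(1/π) ∫ u(x+y) conj (u(x-y)) exp(-2 i p y) dy`, the Wigner function of `|u⟩⟨u|`. -/
noncomputable def wignerOne (u : H) (x p : ℝ) : ℂ :=
  (1 / Real.pi : ℝ) * ∫ y : ℝ, ev u (x + y) * conj (ev u (x - y)) * cexp (-2 * I * p * y)

/-- The Wigner function `(1/π) ∫ ⟨x+y|ρ|x-y⟩ exp(-2 i p y) dy` of `ρ = ∑ w_k |u_k⟩⟨u_k|`, whose
kernel is `⟨x|ρ|x'⟩ = ∑ w_k u_k(x) conj (u_k(x'))`. -/
noncomputable def wigner (w : ℕ → ℝ) (u : ℕ → H) (x p : ℝ) : ℂ :=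
  ∑' k, (w k : ℂ) * wignerOne (u k) x p

/-- The convex set `D₊` of the states (density operators on `L²(ℝ)`) with nonnegative Wigner
function. -/
def DPlus : Set Op :=
  {ρ | ∃ (w : ℕ → ℝ) (u : ℕ → H), IsMixture w u ρ ∧ ∀ x p : ℝ, 0 ≤ wigner w u x p}

/-- `S = t A + (1 - t) B`, i.e. `⟨f|S|g⟩ = t ⟨f|A|g⟩ + (1 - t) ⟨f|B|g⟩` for all `f, g`. -/
def IsComb (t : ℝ) (A B S : Op) : Prop :=
  ∀ f g : H, ip f (app S g) = (t : ℂ) * ip f (app A g) + ((1 - t : ℝ) : ℂ) * ip f (app B g)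

/-- `S` is an extreme point of `D₊`: an element of `D₊` that is not a convex combination
`t A + (1 - t) B`, `0 < t < 1`, of two distinct elements `A`, `B` of `D₊`. -/
def IsExtreme (S : Op) : Prop :=
  S ∈ DPlus ∧ ∀ A ∈ DPlus, ∀ B ∈ DPlus, ∀ t : ℝ, 0 < t → t < 1 → IsComb t A B S → A = B

/-! ### The segment of states -/

/-- the weights -/
noncomputable def wt (s : ℝ) : ℕ → ℝ
  | 0 => 1 / (3 * √Real.pi)
  | 1 => 1 / (6 * √Real.pi)
  | 2 => (2 - 3 / 4 * s ^ 2) / (3 * √Real.pi)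
  | _ => 0

/-- the vectors -/
noncomputable def ve (s : ℝ) : ℕ → H
  | 0 => gv (1 / 2) (s / 2) 1
  | 1 => gv 1 (-s) 0
  | 2 => gv 0 1 0
  | _ => 0

/-- the operator `|u⟩⟨u|` -/
noncomputable def ket (u : H) : H →L[ℂ] H := (innerSL ℂ u).smulRight u

theorem ket_apply (u f : H) : ket u f = ⟪u, f⟫_ℂ • u := by
  simp [ket]

/-- the states `ρ_s` -/
noncomputable def rho (s : ℝ) : H →L[ℂ] H :=
  ((wt s 0 : ℝ) : ℂ) • ket (ve s 0) + ((wt s 1 : ℝ) : ℂ) • ket (ve s 1) +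
    ((wt s 2 : ℝ) : ℂ) • ket (ve s 2)

theorem rho_apply (s : ℝ) (f : H) : rho s f = (((wt s 0 : ℝ) : ℂ) * ⟪ve s 0, f⟫_ℂ) • ve s 0 +
    (((wt s 1 : ℝ) : ℂ) * ⟪ve s 1, f⟫_ℂ) • ve s 1 + (((wt s 2 : ℝ) : ℂ) * ⟪ve s 2, f⟫_ℂ) • ve s 2 := by
  show ((wt s 0 : ℝ) : ℂ) • ket (ve s 0) f + ((wt s 1 : ℝ) : ℂ) • ket (ve s 1) f +
    ((wt s 2 : ℝ) : ℂ) • ket (ve s 2) f = _
  rw [ket_apply, ket_apply, ket_apply, smul_smul, smul_smul, smul_smul]

theorem sqrt_pi_pos : 0 < √Real.pi := Real.sqrt_pos.2 Real.pi_pos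

theorem wt_big (s : ℝ) {k : ℕ} (hk : 3 ≤ k) : wt s k = 0 := by
  obtain ⟨m, rfl⟩ : ∃ m, k = m + 3 := ⟨k - 3, by omega⟩
  rfl

theorem isMixture_rho {s : ℝ} (hs : s ^ 2 ≤ 1) : IsMixture (wt s) (ve s) (rho s) := by
  have hp := sqrt_pi_pos
  refine ⟨?_, ?_, ?_⟩
  · intro k
    rcases k with _ | _ | _ | k
    · show 0 ≤ 1 / (3 * √Real.pi); positivity
    · show 0 ≤ 1 / (6 * √Real.pi); positivity
    · show 0 ≤ (2 - 3 / 4 * s ^ 2) / (3 * √Real.pi)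
      apply div_nonneg <;> nlinarith
    · exact le_rfl
  · have h : HasSum (fun k => wt s k * ‖ve s k‖ ^ 2)
        (∑ k ∈ Finset.range 3, wt s k * ‖ve s k‖ ^ 2) :=
      hasSum_sum_of_ne_finset_zero (fun k hk => by
        rw [Finset.mem_range, not_lt] at hk
        rw [wt_big s hk, zero_mul])
    have e : ∑ k ∈ Finset.range 3, wt s k * ‖ve s k‖ ^ 2 = 1 := by
      rw [Finset.sum_range_succ, Finset.sum_range_succ, Finset.sum_range_one]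
      simp only [wt, ve]
      rw [norm_sq_gv, norm_sq_gv, norm_sq_gv]
      field_simp
      ring
    rw [e] at h
    exact h
  · intro f
    show HasSum (fun k => ((wt s k : ℂ) * ⟪ve s k, f⟫_ℂ) • ve s k) (rho s f)
    have h : HasSum (fun k => ((wt s k : ℂ) * ⟪ve s k, f⟫_ℂ) • ve s k)
        (∑ k ∈ Finset.range 3, ((wt s k : ℂ) * ⟪ve s k, f⟫_ℂ) • ve s k) :=
      hasSum_sum_of_ne_finset_zero (fun k hk => by
        rw [Finset.mem_range, not_lt] at hk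
        rw [wt_big s hk, Complex.ofReal_zero, zero_mul, zero_smul])
    rw [Finset.sum_range_succ, Finset.sum_range_succ, Finset.sum_range_one, ← rho_apply] at h
    exact h

theorem wigner_rho (s x p : ℝ) : wigner (wt s) (ve s) x p =
    ((Real.exp (-x ^ 2) * Real.exp (-p ^ 2) / (3 * Real.pi) *
      ((x ^ 2 + p ^ 2 - 1) ^ 2 + 4 * x ^ 2 + s * x * (x ^ 2 + p ^ 2 - 1)) : ℝ) : ℂ) := by
  have hp := sqrt_pi_pos
  have hpp := Real.pi_pos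
  unfold wigner wignerOne ev
  rw [tsum_eq_sum (s := Finset.range 3) (fun k hk => by
        rw [Finset.mem_range, not_lt] at hk
        rw [wt_big s hk, Complex.ofReal_zero, zero_mul])]
  rw [Finset.sum_range_succ, Finset.sum_range_succ, Finset.sum_range_one]
  simp only [wt, ve]
  rw [wigner_gv, wigner_gv, wigner_gv]
  simp only [← Complex.ofReal_mul, ← Complex.ofReal_add]
  congr 1
  field_simp
  ring

theorem rho_mem {s : ℝ} (hs : s ^ 2 ≤ 1) : rho s ∈ DPlus := by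
  refine ⟨wt s, ve s, isMixture_rho hs, fun x p => ?_⟩
  rw [wigner_rho]
  apply Complex.zero_le_real.2
  have hpp := Real.pi_pos
  have h : 0 ≤ (x ^ 2 + p ^ 2 - 1) ^ 2 + 4 * x ^ 2 + s * x * (x ^ 2 + p ^ 2 - 1) := by
    have h1 : (x ^ 2 + p ^ 2 - 1) ^ 2 + 4 * x ^ 2 + s * x * (x ^ 2 + p ^ 2 - 1) =
        (x ^ 2 + p ^ 2 - 1 + s * x / 2) ^ 2 + (4 - s ^ 2 / 4) * x ^ 2 := by ring
    rw [h1]
    have : 0 ≤ (4 - s ^ 2 / 4) * x ^ 2 := mul_nonneg (by linarith) (sq_nonneg x)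
    positivity
  positivity

theorem rho_form (s : ℝ) (f g : H) : ⟪f, rho s g⟫_ℂ = ((1 / (3 * √Real.pi) : ℝ) : ℂ) *
    (⟪f, gv 0 0 1⟫_ℂ * ⟪gv 0 0 1, g⟫_ℂ + (⟪f, gv 0 0 1⟫_ℂ * ⟪gv 1 0 0, g⟫_ℂ +
      ⟪f, gv 1 0 0⟫_ℂ * ⟪gv 0 0 1, g⟫_ℂ) / 2 + 3 / 4 * (⟪f, gv 1 0 0⟫_ℂ * ⟪gv 1 0 0, g⟫_ℂ) +
      2 * (⟪f, gv 0 1 0⟫_ℂ * ⟪gv 0 1 0, g⟫_ℂ) +
      s * ((⟪f, gv 0 0 1⟫_ℂ * ⟪gv 0 1 0, g⟫_ℂ + ⟪f, gv 0 1 0⟫_ℂ * ⟪gv 0 0 1, g⟫_ℂ) / 2 -
        (⟪f, gv 1 0 0⟫_ℂ * ⟪gv 0 1 0, g⟫_ℂ + ⟪f, gv 0 1 0⟫_ℂ * ⟪gv 1 0 0, g⟫_ℂ) / 4)) := by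
  have hp := sqrt_pi_pos
  rw [rho_apply]
  simp only [wt, ve]
  rw [gv_eq (1 / 2) (s / 2) 1, gv_eq 1 (-s) 0]
  simp only [inner_add_left, inner_add_right, inner_smul_left, inner_smul_right,
    Complex.conj_ofReal, Complex.ofReal_zero, Complex.ofReal_one, map_one, zero_smul,
    smul_add, smul_smul, add_zero]
  have hq : ((√Real.pi : ℝ) : ℂ) ≠ 0 := Complex.ofReal_ne_zero.2 hp.ne'
  push_cast
  field_simp
  ring

theorem rho_mid : rho 0 = (1 / 2 : ℝ) • rho 1 + (1 / 2 : ℝ) • rho (-1) := by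
  refine ContinuousLinearMap.ext fun g => ext_inner_left ℂ fun f => ?_
  have e : ((1 / 2 : ℝ) • rho 1 + (1 / 2 : ℝ) • rho (-1)) g =
      ((1 / 2 : ℝ) : ℂ) • rho 1 g + ((1 / 2 : ℝ) : ℂ) • rho (-1) g := rfl
  rw [e, inner_add_right, inner_smul_right, inner_smul_right, rho_form, rho_form, rho_form]
  push_cast
  ring

theorem inner_gv_gv (a b c a' b' c' : ℝ) : ⟪gv a b c, gv a' b' c'⟫_ℂ =
    ((√Real.pi * (a * a' + (b * b' + a * c' + c * a') / 2 + 3 / 4 * c * c') : ℝ) : ℂ) := by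
  have h1 := inner_self_gv (a + a') (b + b') (c + c')
  have h2 := inner_self_gv a b c
  have h3 := inner_self_gv a' b' c'
  have e : gv (a + a') (b + b') (c + c') = gv a b c + gv a' b' c' := by
    rw [gv_eq (a + a'), gv_eq a b c, gv_eq a' b' c']
    push_cast
    module
  have h4 : ⟪gv a' b' c', gv a b c⟫_ℂ = ⟪gv a b c, gv a' b' c'⟫_ℂ := by
    rw [inner_gv_left, inner_gv_right]
    refine integral_congr_ae ?_
    filter_upwards [coe_gv a b c] with x h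
    rw [h, conj_gf, mul_comm]
  rw [e, inner_add_left, inner_add_right, inner_add_right, h4, h2, h3] at h1
  push_cast at h1 ⊢
  linear_combination h1 / 2

theorem rho_ne : rho 1 ≠ rho 0 := by
  intro h
  have hp := sqrt_pi_pos
  have h1 := congrArg (fun A : H →L[ℂ] H => ⟪gv 0 1 0, A (gv 0 0 1)⟫_ℂ) h
  have a1 : ⟪gv 0 1 0, gv 0 0 1⟫_ℂ = 0 := by rw [inner_gv_gv]; simp
  have a2 : ⟪gv 0 1 0, gv 0 1 0⟫_ℂ = ((√Real.pi : ℝ) : ℂ) / 2 := by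
    rw [inner_gv_gv]; push_cast; ring
  have a3 : ⟪gv 0 1 0, gv 1 0 0⟫_ℂ = 0 := by rw [inner_gv_gv]; simp
  have a4 : ⟪gv 0 0 1, gv 0 0 1⟫_ℂ = 3 / 4 * ((√Real.pi : ℝ) : ℂ) := by
    rw [inner_gv_gv]; push_cast; ring
  have a5 : ⟪gv 1 0 0, gv 0 0 1⟫_ℂ = ((√Real.pi : ℝ) : ℂ) / 2 := by
    rw [inner_gv_gv]; push_cast; ring
  simp only [rho_form, a1, a2, a3, a4, a5] at h1
  have h2 : ((1 / (3 * √Real.pi) : ℝ) : ℂ) * (((√Real.pi : ℝ) : ℂ) ^ 2 / 8) = 0 := by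
    push_cast at h1 ⊢
    linear_combination h1
  rcases mul_eq_zero.1 h2 with h3 | h3
  · have : (1 / (3 * √Real.pi) : ℝ) = 0 := by exact_mod_cast h3
    have h4 : 0 < 1 / (3 * √Real.pi) := by positivity
    linarith
  · have h4 : ((√Real.pi : ℝ) : ℂ) ≠ 0 := Complex.ofReal_ne_zero.2 hp.ne'
    have h5 : ((√Real.pi : ℝ) : ℂ) ^ 2 / 8 ≠ 0 := by positivity
    exact h5 h3

theorem rho_comb : IsComb (1 / 2) (rho 1) (rho (-1)) (rho 0) := by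
  intro f g
  show ⟪f, rho 0 g⟫_ℂ = ((1 / 2 : ℝ) : ℂ) * ⟪f, rho 1 g⟫_ℂ +
    ((1 - 1 / 2 : ℝ) : ℂ) * ⟪f, rho (-1) g⟫_ℂ
  rw [rho_form, rho_form, rho_form]
  push_cast
  ring

theorem rho_ne' : rho 1 ≠ rho (-1) := by
  intro h
  apply rho_ne
  rw [rho_mid, ← h, ← add_smul]
  norm_num

theorem rho_not_extreme : ¬ IsExtreme (rho 0) := by
  intro h
  exact rho_ne' (h.2 _ (rho_mem (by norm_num)) _ (rho_mem (by norm_num)) (1 / 2) (by norm_num)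
    (by norm_num) rho_comb)

/-! ### The beam splitter state -/

theorem fock_zero (x : ℝ) : fock 0 x = gf (1 / √(√Real.pi)) 0 0 x := by
  unfold fock gf
  rw [Polynomial.hermite_zero]
  simp
  ring

theorem fock_two (x : ℝ) :
    fock 2 x = gf (-1 / (√2 * √(√Real.pi))) 0 (2 / (√2 * √(√Real.pi))) x := by
  have h2 : √2 ^ 2 = (2 : ℝ) := Real.sq_sqrt (by norm_num)
  have e : √(((2 : ℕ).factorial : ℝ) * √Real.pi) = √2 * √(√Real.pi) := by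
    rw [Real.sqrt_mul (by positivity)]
    norm_num
  have h3 : (Polynomial.aeval (√2 * x) (Polynomial.hermite 2) : ℝ) = 2 * x ^ 2 - 1 := by
    rw [Polynomial.hermite_succ, Polynomial.hermite_one]
    simp
    rw [mul_mul_mul_comm, ← pow_two, h2]
    ring
  unfold fock gf
  rw [h3, e]
  push_cast
  ring

/-- the state `ψ = (|0⟩ + √2 |2⟩)/√3` -/
noncomputable def psi : ℝ → ℂ := fun x => ∑ n ∈ Finset.range 3,
  (fun n : ℕ => if n = 0 then ((1 / √3 : ℝ) : ℂ) else if n = 2 then ((√2 / √3 : ℝ) : ℂ) else 0) n *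
    fock n x

theorem psi_eq (x : ℝ) : psi x = gf 0 0 (2 / (√3 * √(√Real.pi))) x := by
  have hr : 0 < √(√Real.pi) := Real.sqrt_pos.2 sqrt_pi_pos
  unfold psi
  rw [Finset.sum_range_succ, Finset.sum_range_succ, Finset.sum_range_one]
  simp only [if_true, if_false, one_ne_zero, OfNat.ofNat_ne_zero, OfNat.one_ne_ofNat, zero_mul]
  rw [fock_zero, fock_two]
  unfold gf
  have h2 : (0 : ℝ) < √2 := by positivity
  have h3 : (0 : ℝ) < √3 := by positivity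
  rw [add_zero, ← Complex.ofReal_mul, ← Complex.ofReal_mul, ← Complex.ofReal_add]
  congr 1
  field_simp
  ring

theorem fockBounded_psi : FockBounded psi := by
  have hr : 0 < √(√Real.pi) := Real.sqrt_pos.2 sqrt_pi_pos
  have e : psi = gf 0 0 (2 / (√3 * √(√Real.pi))) := funext psi_eq
  refine ⟨⟨3, _, fun x => rfl⟩, ?_, ?_⟩
  · rw [e]; exact mem_gf _ _ _
  · rw [e, integral_norm_sq_gf, div_pow, mul_pow, Real.sq_sqrt (by norm_num),
      Real.sq_sqrt sqrt_pi_pos.le]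
    have := sqrt_pi_pos
    field_simp
    ring

theorem fockBounded_vac : FockBounded (fock 0) := by
  have hr : 0 < √(√Real.pi) := Real.sqrt_pos.2 sqrt_pi_pos
  have e : fock 0 = gf (1 / √(√Real.pi)) 0 0 := funext fock_zero
  refine ⟨⟨1, fun _ => 1, fun x => by simp⟩, ?_, ?_⟩
  · rw [e]; exact mem_gf _ _ _
  · rw [e, integral_norm_sq_gf, div_pow, Real.sq_sqrt sqrt_pi_pos.le]
    have := sqrt_pi_pos
    field_simp
    norm_num

theorem outKet_eq (x y : ℝ) : outKet psi (fock 0) x y =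
    (((1 / (√3 * √Real.pi)) * Real.exp (-(y ^ 2 / 2)) : ℝ) : ℂ) *
      (gf 0 0 1 x - 2 * y * gf 0 1 0 x + y ^ 2 * gf 1 0 0 x) := by
  have hr : 0 < √(√Real.pi) := Real.sqrt_pos.2 sqrt_pi_pos
  have hr2 : √(√Real.pi) * √(√Real.pi) = √Real.pi := Real.mul_self_sqrt sqrt_pi_pos.le
  have h2 : √2 * √2 = (2 : ℝ) := Real.mul_self_sqrt (by norm_num)
  have h20 : (0 : ℝ) < √2 := by positivity
  have h30 : (0 : ℝ) < √3 := by positivity
  unfold outKet rot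
  beta_reduce
  rw [psi_eq, fock_zero, Real.cos_pi_div_four, Real.sin_pi_div_four]
  have hexp : Real.exp (-((x * (√2 / 2) - y * (√2 / 2)) ^ 2 / 2)) *
      Real.exp (-((x * (√2 / 2) + y * (√2 / 2)) ^ 2 / 2)) =
      Real.exp (-(x ^ 2 / 2)) * Real.exp (-(y ^ 2 / 2)) := by
    rw [← Real.exp_add, ← Real.exp_add]
    congr 1
    linear_combination (-(x ^ 2 + y ^ 2) / 4) * h2
  have e1 : gf 0 0 (2 / (√3 * √(√Real.pi))) (x * (√2 / 2) - y * (√2 / 2)) *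
      gf (1 / √(√Real.pi)) 0 0 (x * (√2 / 2) + y * (√2 / 2)) =
      (((2 / (√3 * √(√Real.pi))) * (x * (√2 / 2) - y * (√2 / 2)) ^ 2 * (1 / √(√Real.pi)) *
        (Real.exp (-((x * (√2 / 2) - y * (√2 / 2)) ^ 2 / 2)) *
          Real.exp (-((x * (√2 / 2) + y * (√2 / 2)) ^ 2 / 2))) : ℝ) : ℂ) := by
    unfold gf; push_cast; ring
  rw [e1, hexp]
  have e2 : (2 / (√3 * √(√Real.pi))) * (x * (√2 / 2) - y * (√2 / 2)) ^ 2 * (1 / √(√Real.pi)) =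
      (1 / (√3 * √Real.pi)) * (x - y) ^ 2 := by
    have : (x * (√2 / 2) - y * (√2 / 2)) ^ 2 = (x - y) ^ 2 / 2 := by
      linear_combination ((x - y) ^ 2 / 4) * h2
    rw [this]
    have key : ∀ r q : ℝ, 0 < r → r * r = q →
        2 / (√3 * r) * ((x - y) ^ 2 / 2) * (1 / r) = 1 / (√3 * q) * (x - y) ^ 2 := by
      intro r q hr hq
      rw [← hq]
      field_simp
    exact key _ _ hr hr2
  rw [e2]
  unfold gf
  push_cast
  ring

theorem integrable_conj_mul (f : H) (a b c : ℝ) :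
    Integrable (fun x => conj (f x) * gf a b c x) := by
  have h := L2.integrable_inner (𝕜 := ℂ) f (gv a b c)
  refine h.congr ?_
  filter_upwards [coe_gv a b c] with x h
  rw [h, RCLike.inner_apply, mul_comm]

theorem left_int (f : H) (y : ℝ) : ∫ x, conj (f x) * outKet psi (fock 0) x y =
    (((1 / (√3 * √Real.pi)) * Real.exp (-(y ^ 2 / 2)) : ℝ) : ℂ) *
      (⟪f, gv 0 0 1⟫_ℂ - 2 * y * ⟪f, gv 0 1 0⟫_ℂ + y ^ 2 * ⟪f, gv 1 0 0⟫_ℂ) := by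
  have e : ∀ x, conj (f x) * outKet psi (fock 0) x y =
      (((1 / (√3 * √Real.pi)) * Real.exp (-(y ^ 2 / 2)) : ℝ) : ℂ) *
      ((conj (f x) * gf 0 0 1 x - 2 * y * (conj (f x) * gf 0 1 0 x)) +
        y ^ 2 * (conj (f x) * gf 1 0 0 x)) := by
    intro x; rw [outKet_eq]; ring
  simp_rw [e]
  have i2 := integrable_conj_mul f 0 0 1
  have i1 := (integrable_conj_mul f 0 1 0).const_mul (2 * (y : ℂ))
  have i0 := (integrable_conj_mul f 1 0 0).const_mul ((y : ℂ) ^ 2)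
  have i21 : Integrable (fun x => conj (f x) * gf 0 0 1 x -
      2 * (y : ℂ) * (conj (f x) * gf 0 1 0 x)) := i2.sub i1
  rw [integral_const_mul, integral_add i21 i0, integral_sub i2 i1, integral_const_mul,
    integral_const_mul, ← inner_gv_right, ← inner_gv_right, ← inner_gv_right]

theorem contr_eq (f : H) (y : ℝ) : contr f (outKet psi (fock 0)) y =
    (((1 / (√3 * √Real.pi)) * Real.exp (-(y ^ 2 / 2)) : ℝ) : ℂ) *
      (⟪f, gv 0 0 1⟫_ℂ - 2 * y * ⟪f, gv 0 1 0⟫_ℂ + y ^ 2 * ⟪f, gv 1 0 0⟫_ℂ) :=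
  left_int f y

theorem conj_contr_eq (g : H) (y : ℝ) : conj (contr g (outKet psi (fock 0)) y) =
    (((1 / (√3 * √Real.pi)) * Real.exp (-(y ^ 2 / 2)) : ℝ) : ℂ) *
      (⟪gv 0 0 1, g⟫_ℂ - 2 * y * ⟪gv 0 1 0, g⟫_ℂ + y ^ 2 * ⟪gv 1 0 0, g⟫_ℂ) := by
  rw [contr_eq]
  simp only [map_mul, map_add, map_sub, Complex.conj_ofReal, map_pow, map_ofNat, inner_conj_symm]

theorem isBeamSplitterState_rho : IsBeamSplitterState psi (fock 0) (rho 0) := by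
  intro f g
  have hp := sqrt_pi_pos
  show ⟪f, rho 0 g⟫_ℂ = _
  have e : ∀ y : ℝ, contr f (outKet psi (fock 0)) y * conj (contr g (outKet psi (fock 0)) y) =
      (((1 / (√3 * √Real.pi)) ^ 2 : ℝ) : ℂ) * ((⟪f, gv 0 0 1⟫_ℂ * ⟪gv 0 0 1, g⟫_ℂ +
        (-2 * (⟪f, gv 0 1 0⟫_ℂ * ⟪gv 0 0 1, g⟫_ℂ + ⟪f, gv 0 0 1⟫_ℂ * ⟪gv 0 1 0, g⟫_ℂ)) * y +
        (⟪f, gv 1 0 0⟫_ℂ * ⟪gv 0 0 1, g⟫_ℂ + ⟪f, gv 0 0 1⟫_ℂ * ⟪gv 1 0 0, g⟫_ℂ +
          4 * (⟪f, gv 0 1 0⟫_ℂ * ⟪gv 0 1 0, g⟫_ℂ)) * y ^ 2 +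
        (-2 * (⟪f, gv 0 1 0⟫_ℂ * ⟪gv 1 0 0, g⟫_ℂ + ⟪f, gv 1 0 0⟫_ℂ * ⟪gv 0 1 0, g⟫_ℂ)) * y ^ 3 +
        (⟪f, gv 1 0 0⟫_ℂ * ⟪gv 1 0 0, g⟫_ℂ) * y ^ 4) * E 0 y) := by
    intro y
    have h : Real.exp (-(y ^ 2 / 2)) * Real.exp (-(y ^ 2 / 2)) = Real.exp (-y ^ 2) := by
      rw [← Real.exp_add]; congr 1; ring
    rw [contr_eq, conj_contr_eq, E_zero, ← h]
    push_cast
    ring
  simp_rw [e]
  rw [integral_const_mul, integral_poly, M_one, M_two, M_three, M_four, M0_zero, rho_form]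
  have h3 : (1 / (√3 * √Real.pi)) ^ 2 = 1 / (3 * √Real.pi) * (1 / √Real.pi) := by
    rw [div_pow, mul_pow, Real.sq_sqrt (by norm_num)]
    field_simp
  rw [h3]
  have hq : ((√Real.pi : ℝ) : ℂ) ≠ 0 := Complex.ofReal_ne_zero.2 hp.ne'
  push_cast
  field_simp
  ring

theorem unique_bs {ψ φ : ℝ → ℂ} {S T : Op} (hS : IsBeamSplitterState ψ φ S)
    (hT : IsBeamSplitterState ψ φ T) : S = T :=
  ContinuousLinearMap.ext fun g => ext_inner_left ℂ fun f => (hS f g).trans (hT f g).symm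

theorem bs_iff (T : Op) : IsBeamSplitterState psi (fock 0) T ↔ T = rho 0 := by
  constructor
  · intro h
    exact unique_bs h isBeamSplitterState_rho
  · rintro rfl
    exact isBeamSplitterState_rho

end Pool.Agent.Q204.BS
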