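import Mathlib

/-!
# Moments of a Gaussian with a phase
-/

set_option autoImplicit false

open MeasureTheory Complex

namespace Pool.Agent.Q204.BS

/-- the Gaussian with a phase -/
noncomputable def E (p y : ℝ) : ℂ := cexp (-(y : ℂ) ^ 2 - 2 * I * p * y)

theorem norm_E (p y : ℝ) : ‖E p y‖ = Real.exp (-y ^ 2) := by
  rw [E, Complex.norm_exp]
  congr 1
  simp [pow_two]

theorem continuous_E (p : ℝ) : Continuous (E p) := by
  unfold E; fun_prop

theorem int_pow (k : ℕ) : Integrable (fun y : ℝ => |y| ^ k * Real.exp (-y ^ 2)) := by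
  have h := (integrable_rpow_mul_exp_neg_mul_sq (b := 1) one_pos (s := (k : ℝ))
    (by have := Nat.cast_nonneg (α := ℝ) k; linarith)).norm
  refine h.congr (Filter.Eventually.of_forall fun y => ?_)
  simp only [Real.rpow_natCast, norm_mul, norm_pow, Real.norm_eq_abs, Real.abs_exp]
  congr 2
  ring

theorem integ (k : ℕ) (p : ℝ) : Integrable (fun y : ℝ => (y : ℂ) ^ k * E p y) := by
  refine (int_pow k).mono' ?_ (Filter.Eventually.of_forall fun y => ?_)
  · have : Continuous (fun y : ℝ => (y : ℂ) ^ k * E p y) := by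
      have := continuous_E p
      fun_prop
    exact this.aestronglyMeasurable
  · rw [norm_mul, norm_pow, norm_E, Complex.norm_real, Real.norm_eq_abs]

/-- the moments -/
noncomputable def M (k : ℕ) (p : ℝ) : ℂ := ∫ y : ℝ, (y : ℂ) ^ k * E p y

theorem M_zero (p : ℝ) : M 0 p = ((√Real.pi * Real.exp (-p ^ 2) : ℝ) : ℂ) := by
  have h := integral_cexp_quadratic (b := -1) (by simp) (-2 * I * p) 0
  have e : M 0 p = ∫ x : ℝ, cexp (-1 * (x : ℂ) ^ 2 + -2 * I * p * x + 0) := by
    unfold M E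
    congr 1
    ext y
    rw [pow_zero, one_mul]
    congr 1
    ring
  rw [e, h]
  push_cast
  congr 1
  · rw [neg_neg, div_one, Real.sqrt_eq_rpow, ofReal_cpow Real.pi_pos.le]
    norm_num
  · congr 1
    have := I_sq
    linear_combination (p : ℂ) ^ 2 * this

theorem hasDeriv_E (p y : ℝ) : HasDerivAt (E p) ((-2 * y - 2 * I * p) * E p y) y := by
  unfold E
  have h1 : HasDerivAt (fun z : ℂ => cexp (-z ^ 2 - 2 * I * p * z))
      (cexp (-(y : ℂ) ^ 2 - 2 * I * p * y) * (-(2 * (y : ℂ)) - 2 * I * p)) (y : ℂ) := by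
    refine HasDerivAt.cexp ?_
    have h2 : HasDerivAt (fun z : ℂ => -z ^ 2 - 2 * I * p * z)
        (-(((2 : ℕ) : ℂ) * (y : ℂ) ^ (2 - 1)) - 2 * I * p * 1) (y : ℂ) :=
      ((hasDerivAt_pow 2 (y : ℂ)).neg).sub ((hasDerivAt_id (y : ℂ)).const_mul (2 * I * p))
    have e : -(2 * (y : ℂ)) - 2 * I * p = -(((2 : ℕ) : ℂ) * (y : ℂ) ^ (2 - 1)) - 2 * I * p * 1 := by
      simp
    rw [e]
    exact h2
  have h3 := h1.comp_ofReal
  convert h3 using 1
  ring

theorem M_one (p : ℝ) : M 1 p = -I * p * M 0 p := by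
  have h : ∫ y : ℝ, ((-2 * y - 2 * I * p) * E p y) = 0 := by
    refine integral_eq_zero_of_hasDerivAt_of_integrable (hasDeriv_E p) ?_ ?_
    · have := ((integ 1 p).const_mul (-2)).add ((integ 0 p).const_mul (-2 * I * p))
      refine this.congr (Filter.Eventually.of_forall fun y => ?_)
      simp only [Pi.add_apply]
      ring
    · refine (integ 0 p).congr (Filter.Eventually.of_forall fun y => ?_)
      simp
  have e : ∫ y : ℝ, ((-2 * y - 2 * I * p) * E p y) = -2 * M 1 p + (-2 * I * p) * M 0 p := by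
    unfold M
    rw [← integral_const_mul, ← integral_const_mul, ← integral_add
      ((integ 1 p).const_mul (-2)) ((integ 0 p).const_mul (-2 * I * p))]
    congr 1
    ext y
    ring
  rw [e] at h
  linear_combination (-1 / 2 : ℂ) * h

theorem M_rec (k : ℕ) (p : ℝ) :
    M (k + 2) p = -I * p * M (k + 1) p + ((k + 1 : ℕ) : ℂ) / 2 * M k p := by
  have hd : ∀ y : ℝ, HasDerivAt (fun y : ℝ => (y : ℂ) ^ (k + 1) * E p y)
      (((k + 1 : ℕ) : ℂ) * (y : ℂ) ^ k * E p y + (y : ℂ) ^ (k + 1) *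
        ((-2 * y - 2 * I * p) * E p y)) y := by
    intro y
    have h1 := (hasDerivAt_pow (k + 1) (y : ℂ)).comp_ofReal
    exact h1.mul (hasDeriv_E p y)
  have e1 : ∀ y : ℝ, (((k + 1 : ℕ) : ℂ) * (y : ℂ) ^ k * E p y + (y : ℂ) ^ (k + 1) *
        ((-2 * y - 2 * I * p) * E p y)) = ((k + 1 : ℕ) : ℂ) * ((y : ℂ) ^ k * E p y) +
        ((-2) * ((y : ℂ) ^ (k + 2) * E p y) + (-2 * I * p) * ((y : ℂ) ^ (k + 1) * E p y)) := by
    intro y; ring
  have hint := ((integ k p).const_mul ((k + 1 : ℕ) : ℂ)).add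
    (((integ (k + 2) p).const_mul (-2)).add ((integ (k + 1) p).const_mul (-2 * I * p)))
  have h := integral_eq_zero_of_hasDerivAt_of_integrable hd
    (hint.congr (Filter.Eventually.of_forall fun y => (e1 y).symm)) (integ (k + 1) p)
  simp_rw [e1] at h
  have j2 : Integrable (fun y : ℝ => (-2) * ((y : ℂ) ^ (k + 2) * E p y) +
      (-2 * I * p) * ((y : ℂ) ^ (k + 1) * E p y)) :=
    ((integ (k + 2) p).const_mul (-2)).add ((integ (k + 1) p).const_mul (-2 * I * p))
  rw [integral_add ((integ k p).const_mul _) j2,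
    integral_add ((integ (k + 2) p).const_mul (-2)) ((integ (k + 1) p).const_mul (-2 * I * p)),
    integral_const_mul, integral_const_mul, integral_const_mul] at h
  change ((k + 1 : ℕ) : ℂ) * M k p + (-2 * M (k + 2) p + -2 * I * p * M (k + 1) p) = 0 at h
  linear_combination (-1 / 2 : ℂ) * h

theorem M_two (p : ℝ) : M 2 p = (1 / 2 - (p : ℂ) ^ 2) * M 0 p := by
  rw [M_rec 0, M_one]
  push_cast
  linear_combination (p : ℂ) ^ 2 * M 0 p * I_sq

theorem M_three (p : ℝ) : M 3 p = (I * p ^ 3 - 3 / 2 * I * p) * M 0 p := by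
  rw [M_rec 1, M_two, M_one]
  push_cast
  ring

theorem M_four (p : ℝ) : M 4 p = ((p : ℂ) ^ 4 - 3 * p ^ 2 + 3 / 4) * M 0 p := by
  rw [M_rec 2, M_three, M_two]
  push_cast
  linear_combination (-(p : ℂ) ^ 4 + 3 / 2 * p ^ 2) * M 0 p * I_sq

theorem integrable_sum (n : ℕ) (p : ℝ) (a : ℕ → ℂ) :
    Integrable fun y : ℝ => ∑ k ∈ Finset.range n, a k * ((y : ℂ) ^ k * E p y) :=
  integrable_finsetSum _ fun k _ => (integ k p).const_mul (a k)

theorem integral_sum (n : ℕ) (p : ℝ) (a : ℕ → ℂ) :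
    ∫ y : ℝ, ∑ k ∈ Finset.range n, a k * ((y : ℂ) ^ k * E p y) =
      ∑ k ∈ Finset.range n, a k * M k p := by
  rw [integral_finsetSum _ fun k _ => (integ k p).const_mul (a k)]
  simp_rw [integral_const_mul]
  rfl

/-- the integral of a polynomial of degree at most four -/
theorem integral_poly (p : ℝ) (a0 a1 a2 a3 a4 : ℂ) :
    ∫ y : ℝ, (a0 + a1 * y + a2 * y ^ 2 + a3 * y ^ 3 + a4 * y ^ 4) * E p y =
      a0 * M 0 p + a1 * M 1 p + a2 * M 2 p + a3 * M 3 p + a4 * M 4 p := by
  have h := integral_sum 5 p (fun k => if k = 0 then a0 else if k = 1 then a1 else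
    if k = 2 then a2 else if k = 3 then a3 else a4)
  simp only [Finset.sum_range_succ, Finset.sum_range_zero] at h
  simp at h
  rw [← h]
  congr 1
  ext y
  ring

theorem integrable_poly (p : ℝ) (a0 a1 a2 a3 a4 : ℂ) :
    Integrable fun y : ℝ => (a0 + a1 * y + a2 * y ^ 2 + a3 * y ^ 3 + a4 * y ^ 4) * E p y := by
  have h := integrable_sum 5 p (fun k => if k = 0 then a0 else if k = 1 then a1 else
    if k = 2 then a2 else if k = 3 then a3 else a4)
  refine h.congr (Filter.Eventually.of_forall fun y => ?_)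
  simp [Finset.sum_range_succ]
  ring

end Pool.Agent.Q204.BS
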