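import Pool.Agent.Q204.BS.Mom

/-!
# Quadratic polynomials times a Gaussian in `L²(ℝ)`
-/

set_option autoImplicit false

open MeasureTheory Complex ComplexConjugate
open scoped InnerProductSpace

namespace Pool.Agent.Q204.BS

/-- `(a + b x + c x²) exp(-x²/2)` -/
noncomputable def gf (a b c : ℝ) (x : ℝ) : ℂ :=
  (((a + b * x + c * x ^ 2) * Real.exp (-(x ^ 2 / 2)) : ℝ) : ℂ)

theorem gf_eq (a b c x : ℝ) :
    gf a b c x = (a : ℂ) * gf 1 0 0 x + b * gf 0 1 0 x + c * gf 0 0 1 x := by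
  unfold gf; push_cast; ring

theorem conj_gf (a b c x : ℝ) : conj (gf a b c x) = gf a b c x := Complex.conj_ofReal _

theorem continuous_gf (a b c : ℝ) : Continuous (gf a b c) := by
  unfold gf; fun_prop

theorem exp_mul (x y : ℝ) : Real.exp (-(x ^ 2 / 2)) * Real.exp (-(y ^ 2 / 2)) =
    Real.exp (-((x ^ 2 + y ^ 2) / 2)) := by
  rw [← Real.exp_add]; congr 1; ring

theorem E_zero (x : ℝ) : E 0 x = ((Real.exp (-x ^ 2) : ℝ) : ℂ) := by
  unfold E; push_cast; congr 1; ring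

theorem gf_sq (a b c x : ℝ) : gf a b c x * gf a b c x =
    ((a ^ 2 : ℂ) + (2 * a * b) * x + (b ^ 2 + 2 * a * c) * x ^ 2 + (2 * b * c) * x ^ 3 +
      c ^ 2 * x ^ 4) * E 0 x := by
  have h : Real.exp (-(x ^ 2 / 2)) * Real.exp (-(x ^ 2 / 2)) = Real.exp (-x ^ 2) := by
    rw [← Real.exp_add]; congr 1; ring
  rw [E_zero, ← h]
  unfold gf
  push_cast
  ring

theorem norm_gf_sq (a b c x : ℝ) : ‖gf a b c x‖ ^ 2 =
    ‖((a ^ 2 : ℂ) + (2 * a * b) * x + (b ^ 2 + 2 * a * c) * x ^ 2 + (2 * b * c) * x ^ 3 +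
      c ^ 2 * x ^ 4) * E 0 x‖ := by
  rw [← gf_sq, norm_mul, pow_two]

theorem mem_gf (a b c : ℝ) : MemLp (gf a b c) 2 volume := by
  rw [memLp_two_iff_integrable_sq_norm (continuous_gf a b c).aestronglyMeasurable]
  simp_rw [norm_gf_sq]
  exact (integrable_poly 0 _ _ _ _ _).norm

/-- the vector of `L²` -/
noncomputable def gv (a b c : ℝ) : Lp ℂ 2 (volume : Measure ℝ) := (mem_gf a b c).toLp _

theorem coe_gv (a b c : ℝ) : gv a b c =ᵐ[volume] gf a b c := (mem_gf a b c).coeFn_toLp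

theorem gv_eq (a b c : ℝ) :
    gv a b c = (a : ℂ) • gv 1 0 0 + (b : ℂ) • gv 0 1 0 + (c : ℂ) • gv 0 0 1 := by
  apply Lp.ext
  filter_upwards [coe_gv a b c, coe_gv 1 0 0, coe_gv 0 1 0, coe_gv 0 0 1,
    Lp.coeFn_add ((a : ℂ) • gv 1 0 0 + (b : ℂ) • gv 0 1 0) ((c : ℂ) • gv 0 0 1),
    Lp.coeFn_add ((a : ℂ) • gv 1 0 0) ((b : ℂ) • gv 0 1 0),
    Lp.coeFn_smul (a : ℂ) (gv 1 0 0), Lp.coeFn_smul (b : ℂ) (gv 0 1 0),
    Lp.coeFn_smul (c : ℂ) (gv 0 0 1)] with x h1 h2 h3 h4 h5 h6 h7 h8 h9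
  rw [h1, h5, Pi.add_apply, h6, Pi.add_apply, h7, h8, h9, Pi.smul_apply, Pi.smul_apply,
    Pi.smul_apply, h2, h3, h4, gf_eq]
  simp only [smul_eq_mul]

theorem inner_gv_right (f : Lp ℂ 2 (volume : Measure ℝ)) (a b c : ℝ) :
    ⟪f, gv a b c⟫_ℂ = ∫ x, conj (f x) * gf a b c x := by
  rw [L2.inner_def]
  refine integral_congr_ae ?_
  filter_upwards [coe_gv a b c] with x h
  rw [h, RCLike.inner_apply, mul_comm]

theorem inner_gv_left (f : Lp ℂ 2 (volume : Measure ℝ)) (a b c : ℝ) :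
    ⟪gv a b c, f⟫_ℂ = ∫ x, gf a b c x * f x := by
  rw [L2.inner_def]
  refine integral_congr_ae ?_
  filter_upwards [coe_gv a b c] with x h
  rw [h, RCLike.inner_apply, conj_gf, mul_comm]

theorem M0_zero : M 0 0 = ((√Real.pi : ℝ) : ℂ) := by
  rw [M_zero]; simp

theorem inner_self_gv (a b c : ℝ) :
    ⟪gv a b c, gv a b c⟫_ℂ = ((√Real.pi * (a ^ 2 + (b ^ 2 + 2 * a * c) / 2 + 3 / 4 * c ^ 2) : ℝ) : ℂ) := by
  rw [inner_gv_left]
  have h : ∫ x, gf a b c x * gv a b c x = ∫ x, gf a b c x * gf a b c x := by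
    refine integral_congr_ae ?_
    filter_upwards [coe_gv a b c] with x h
    rw [h]
  rw [h]
  simp_rw [gf_sq]
  rw [integral_poly, M_one, M_two, M_three, M_four, M0_zero]
  push_cast
  ring

theorem norm_sq_gv (a b c : ℝ) :
    ‖gv a b c‖ ^ 2 = √Real.pi * (a ^ 2 + (b ^ 2 + 2 * a * c) / 2 + 3 / 4 * c ^ 2) := by
  rw [← inner_self_eq_norm_sq (𝕜 := ℂ), inner_self_gv, RCLike.re_eq_complex_re, Complex.ofReal_re]

theorem integral_norm_sq_gf (a b c : ℝ) :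
    ∫ x, ‖gf a b c x‖ ^ 2 = √Real.pi * (a ^ 2 + (b ^ 2 + 2 * a * c) / 2 + 3 / 4 * c ^ 2) := by
  have h : ∫ x, ((‖gf a b c x‖ ^ 2 : ℝ) : ℂ) = ∫ x, gf a b c x * gf a b c x := by
    congr 1
    ext x
    have := Complex.mul_conj (gf a b c x)
    rw [conj_gf] at this
    rw [this, Complex.normSq_eq_norm_sq]
  rw [integral_complex_ofReal] at h
  simp_rw [gf_sq] at h
  rw [integral_poly, M_one, M_two, M_three, M_four, M0_zero] at h
  have h2 : ((∫ x, ‖gf a b c x‖ ^ 2 : ℝ) : ℂ) =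
      ((√Real.pi * (a ^ 2 + (b ^ 2 + 2 * a * c) / 2 + 3 / 4 * c ^ 2) : ℝ) : ℂ) := by
    rw [h]; push_cast; ring
  exact_mod_cast h2

/-- the cross term of the Wigner function of `gf a b c` -/
theorem wigner_gf (a b c x p : ℝ) :
    ∫ y, gf a b c (x + y) * conj (gf a b c (x - y)) * cexp (-2 * I * p * y) =
      ((Real.exp (-x ^ 2) * (√Real.pi * Real.exp (-p ^ 2)) * ((a + b * x + c * x ^ 2) ^ 2 +
        (2 * (a + b * x + c * x ^ 2) * c - (b + 2 * c * x) ^ 2) * (1 / 2 - p ^ 2) +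
          c ^ 2 * (p ^ 4 - 3 * p ^ 2 + 3 / 4)) : ℝ) : ℂ) := by
  have e : ∀ y : ℝ, gf a b c (x + y) * conj (gf a b c (x - y)) * cexp (-2 * I * p * y) =
      ((Real.exp (-x ^ 2) : ℝ) : ℂ) * ((((a : ℂ) + b * x + c * x ^ 2) ^ 2 + 0 * y +
        (2 * (a + b * x + c * x ^ 2) * c - (b + 2 * c * x) ^ 2) * y ^ 2 + 0 * y ^ 3 +
          c ^ 2 * y ^ 4) * E p y) := by
    intro y
    have h1 : E p y = ((Real.exp (-y ^ 2) : ℝ) : ℂ) * cexp (-2 * I * p * y) := by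
      unfold E
      push_cast
      rw [← Complex.exp_add]
      congr 1
      ring
    have h2 : Real.exp (-((x + y) ^ 2 / 2)) * Real.exp (-((x - y) ^ 2 / 2)) =
        Real.exp (-x ^ 2) * Real.exp (-y ^ 2) := by
      rw [← Real.exp_add, ← Real.exp_add]; congr 1; ring
    have h3 : gf a b c (x + y) * conj (gf a b c (x - y)) =
        ((((a + b * (x + y) + c * (x + y) ^ 2) * (a + b * (x - y) + c * (x - y) ^ 2)) *
          (Real.exp (-x ^ 2) * Real.exp (-y ^ 2)) : ℝ) : ℂ) := by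
      rw [conj_gf, ← h2]
      unfold gf
      push_cast
      ring
    rw [h3, h1]
    push_cast
    ring
  simp_rw [e]
  rw [integral_const_mul, integral_poly, M_one, M_two, M_three, M_four, M_zero]
  push_cast
  ring

theorem wigner_gv (a b c x p : ℝ) :
    ∫ y, gv a b c (x + y) * conj (gv a b c (x - y)) * cexp (-2 * I * p * y) =
      ((Real.exp (-x ^ 2) * (√Real.pi * Real.exp (-p ^ 2)) * ((a + b * x + c * x ^ 2) ^ 2 +
        (2 * (a + b * x + c * x ^ 2) * c - (b + 2 * c * x) ^ 2) * (1 / 2 - p ^ 2) +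
          c ^ 2 * (p ^ 4 - 3 * p ^ 2 + 3 / 4)) : ℝ) : ℂ) := by
  rw [← wigner_gf]
  refine integral_congr_ae ?_
  have h1 : (fun y : ℝ => gv a b c (x + y)) =ᵐ[volume] fun y => gf a b c (x + y) :=
    (measurePreserving_add_left volume x).quasiMeasurePreserving.ae_eq_comp (coe_gv a b c)
  have h2 : (fun y : ℝ => gv a b c (x - y)) =ᵐ[volume] fun y => gf a b c (x - y) :=
    (Measure.measurePreserving_sub_left volume x).quasiMeasurePreserving.ae_eq_comp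
      (coe_gv a b c)
  filter_upwards [h1, h2] with y e1 e2
  rw [e1, e2]

end Pool.Agent.Q204.BS
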